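import Pool.Agent.Run7.h927.ST.Unif
import Pool.Agent.N469.SQ.One
import Pool.Agent.N469.SQ.Smooth

/-!
# Primes `q` for which all `d_i q + a_i` are primes: smooth constants, all small slopes at the same time

For almost all vectors `(a_1, ..., a_s)` of smooth integers (possibly shifted and dilated), and, more generally, for
almost all vectors of integers composed of the primes from given sets `P_i`, the formula of Hardy and Littlewood holds
for the number of the primes `q` for which all the numbers `d_i q + a_i` are primes, for ALL the slopes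
`d_i ≤ log ^ A N` at the same time, and for all the vectors of constants in a box of side `log ^ W N` as well. For
`s = 1` this is the number of the primes `q` with `a + q d` prime; the pair `(a, d)` is admissible in this case if and
only if `gcd (a, d) = 1` and `2 ∣ a d`. There can be as few as `N ^ (1 / 2 + δ)` smooth integers, and the constants are
as large as the values of `d q`.

Method: the exponential sum over the integers composed of primes from `P` is small unless the frequency is very close
to a rational number with a small denominator (starting files, `Pool.Agent.N469.SQ`, helper469); hence the sum of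
`G n * (Λ - λ_z) (n + a)` over `n ≤ N` is small on average over these `a`, for ARBITRARY coefficients `G`. With
coefficients supported on the multiples of `d` this replaces the von Mangoldt function by the sieve model along the
progression `d q + a`, uniformly in `d` (`Pool.Agent.N699.ST`, starting files, helper699). New here: the combination for
smooth constants, and the passage to all the vectors near a random one.
-/

set_option autoImplicit false

namespace Pool.Agent.Results.MP_8bf9c2_nt.SmoothConstants

open Finset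

/-- For every prime `p` there is an `r` such that `p` divides neither `r` nor any `d i * r + a i`. -/
def Admissible {s : ℕ} (d a : Fin s → ℕ) : Prop := ∀ p : ℕ, p.Prime → ∃ r : ℕ, ¬ p ∣ r ∧ ∀ i, ¬ p ∣ d i * r + a i

/-- The number of the residues `r < p` for which `p` divides `r * ∏ i, (d i * r + a i)`. -/
def nu {s : ℕ} (d a : Fin s → ℕ) (p : ℕ) : ℕ := ((range p).filter fun r => p ∣ r * ∏ i, (d i * r + a i)).card

/-- The partial product over the primes `p ≤ z` of the singular series. -/
noncomputable def sing {s : ℕ} (d a : Fin s → ℕ) (z : ℕ) : ℝ :=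
  ∏ p ∈ (Icc 1 z).filter Nat.Prime, (1 - (nu d a p : ℝ) / p) / (1 - 1 / (p : ℝ)) ^ (s + 1)

/-- The number of the primes `q ≤ x` for which all `d i * q + a i` are primes. -/
def count {s : ℕ} (d a : Fin s → ℕ) (x : ℕ) : ℕ := ((Icc 1 x).filter fun q => q.Prime ∧ ∀ i, (d i * q + a i).Prime).card

/-- The formula of Hardy and Littlewood for the primes `q ≤ x` with all `d i * q + a i` prime, where `log N` is the
approximate size of the logarithms of the primes: the singular series converges to some `S > 0`, the number of the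
solutions weighted with the von Mangoldt function is `S x`, with an error of at most `x / log ^ U N`, and the number of
the solutions is `S x / log ^ (s + 1) N`, with a relative error of at most `ε`. -/
def Formula {s : ℕ} (ε : ℝ) (U N x : ℕ) (d a : Fin s → ℕ) : Prop :=
  ∃ S : ℝ, 0 < S ∧ Filter.Tendsto (sing d a) Filter.atTop (nhds S) ∧
    |∑ n ∈ Icc 1 x, ArithmeticFunction.vonMangoldt n * ∏ i, ArithmeticFunction.vonMangoldt (d i * n + a i) - S * x| ≤
      x / Real.log N ^ U ∧
    |(count d a x : ℝ) - S * (x / Real.log N ^ (s + 1))| ≤ ε * (S * (x / Real.log N ^ (s + 1)))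

/-- For all the vectors `a'` of integers with `a i ≤ a' i ≤ a i + log ^ W N`, for all `j ≤ log ^ A N` and for ALL
slopes `1 ≤ d i ≤ j` such that the system is admissible, the formula holds for the primes `q ≤ N / j`. -/
def Good {s : ℕ} (ε : ℝ) (A U W N : ℕ) (a : Fin s → ℕ) : Prop :=
  ∀ a' : Fin s → ℕ, (∀ i, a i ≤ a' i ∧ (a' i : ℝ) ≤ a i + Real.log N ^ W) →
    ∀ (j : ℕ) (d : Fin s → ℕ), (j : ℝ) ≤ Real.log N ^ A → (∀ i, 1 ≤ d i ∧ d i ≤ j) → Admissible d a' →
      Formula ε U N (N / j) d a'

/-- The integers `1 ≤ v ≤ x` all of whose prime factors belong to `P`. -/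
def composedOf (P : Finset ℕ) (x : ℕ) : Finset ℕ := (Icc 1 x).filter fun v => v.primeFactors ⊆ P

/-- The `y`-smooth integers `1 ≤ v ≤ x`: the integers all of whose prime factors are at most `y`. -/
def smooth (y x : ℕ) : Finset ℕ := (Icc 1 x).filter fun v => ∀ p ∈ v.primeFactors, p ≤ y

open Classical in
/-- Let `s ≥ 1`, factors `κ i ≥ 1` (`i < s`), `A`, `B`, `K`, `U`, `W`, `δ > 0` and `ε > 0` be fixed. Let `N` be large, let
`N / B ≤ x i ≤ N` and `1 ≤ y i ≤ log ^ K N`, and let `0 ≤ c i ≤ B N` be arbitrary integers.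

(1) Let `P i` be arbitrary sets of primes which are at most `y i`, with at least `(y i) ^ (1 / 2 + δ) log N` elements.
Then all the vectors `(v 1, ..., v s)` of integers `v i ≤ x i` composed of primes from `P i`, with the exception of a
proportion of at most `1 / log ^ U N` of them, have the following property: for all the vectors `a` of integers with
`c i + κ i v i ≤ a i ≤ c i + κ i v i + log ^ W N`, for all `j ≤ log ^ A N` and ALL slopes `1 ≤ d 1, ..., d s ≤ j` for which
the system is admissible, the formula of Hardy and Littlewood holds for the number of the primes `q ≤ N / j` for which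
all `d i * q + a i` are primes. (There can be as few as about `N ^ (1 / 2 + δ)` such integers `v i`.)

(2) In particular all the vectors of `y i`-smooth numbers `v i ≤ x i` have this property, with the exception of a
proportion of at most `1 / log ^ U N` of them, if `y i ≥ log ^ (2 + δ) N`. -/
theorem result (s : ℕ) (hs : 1 ≤ s) (κ : Fin s → ℕ) (hκ : ∀ i, 1 ≤ κ i) (A B K U W : ℕ) (δ ε : ℝ) (hδ : 0 < δ)
    (hε : 0 < ε) :
    ∃ N₀ : ℕ, ∀ N, N₀ ≤ N → ∀ x y : Fin s → ℕ, (∀ i, x i ≤ N ∧ N ≤ B * x i) →
      (∀ i, 1 ≤ y i ∧ (y i : ℝ) ≤ Real.log N ^ K) → ∀ c : Fin s → ℕ, (∀ i, c i ≤ B * N) →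
      (∀ P : Fin s → Finset ℕ, (∀ i, ∀ p ∈ P i, p.Prime ∧ p ≤ y i) →
        (∀ i, (y i : ℝ) ^ (1 / 2 + δ) * Real.log N ≤ (P i).card) →
        (((Fintype.piFinset fun i => composedOf (P i) (x i)).filter fun v =>
          ¬ Good ε A U W N (fun i => c i + κ i * v i)).card : ℝ) ≤
          ((Fintype.piFinset fun i => composedOf (P i) (x i)).card : ℝ) / Real.log N ^ U) ∧
      ((∀ i, Real.log N ^ (2 + δ) ≤ y i) →
        (((Fintype.piFinset fun i => smooth (y i) (x i)).filter fun v =>
          ¬ Good ε A U W N (fun i => c i + κ i * v i)).card : ℝ) ≤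
          ((Fintype.piFinset fun i => smooth (y i) (x i)).card : ℝ) / Real.log N ^ U) := by
  obtain ⟨δ', N1, hδ', h1⟩ := Pool.Agent.N469.SQ.PR_cond δ hδ
  have gen : ∀ δ₁ : ℝ, 0 < δ₁ → ∃ N₀ : ℕ, ∀ N, N₀ ≤ N → ∀ x y : Fin s → ℕ, (∀ i, x i ≤ N ∧ N ≤ B * x i) →
      (∀ i, 1 ≤ y i ∧ (y i : ℝ) ≤ Real.log N ^ K) → ∀ c : Fin s → ℕ, (∀ i, c i ≤ B * N) →
      ∀ P : Fin s → Finset ℕ, (∀ i, ∀ p ∈ P i, p.Prime ∧ p ≤ y i) →
        (∀ i, (y i : ℝ) ^ (1 / 2 + δ₁) * Real.log N ≤ (P i).card) →
        (((Fintype.piFinset fun i => composedOf (P i) (x i)).filter fun v =>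
          ¬ Good ε A U W N (fun i => c i + κ i * v i)).card : ℝ) ≤
          ((Fintype.piFinset fun i => composedOf (P i) (x i)).card : ℝ) / Real.log N ^ U := by
    intro δ₁ hδ₁
    obtain ⟨N₀, h0⟩ := Pool.Agent.Run7.h927.ST.ws_near s hs (fun _ => Pool.Agent.N469.SQ.Sm δ₁ B K) κ hκ B U A W ε hε
      (fun i V => Pool.Agent.N469.SQ.sm_one δ₁ hδ₁ B K (κ i) (hκ i) (B + 1) V)
    refine ⟨N₀ + 1, fun N hN x y hx hy c hc P hP hcard => ?_⟩
    have hx1 : ∀ i, 1 ≤ x i := by
      intro i
      rcases Nat.eq_zero_or_pos (x i) with h | h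
      · have := (hx i).2
        rw [h] at this
        omega
      · exact h
    have hne : ∀ i, 0 < (composedOf (P i) (x i)).card := fun i =>
      Pool.Agent.N469.SM.card_SS_pos (P i) (hx1 i)
    have h2 := h0 N (by omega) (fun i => Pool.Agent.N469.SM.SS (P i) (x i))
      (fun i _ => 1 / ((Pool.Agent.N469.SM.SS (P i) (x i)).card : ℝ))
      (fun i => ⟨P i, y i, x i, (hx i).1, (hx i).2, hP i, (hy i).1, (hy i).2, hcard i, rfl, rfl⟩)
      (fun i v _ => by positivity) c hc
    have h3 := Pool.Agent.Run7.h927.ST.unif_bad (fun i => composedOf (P i) (x i)) (fun i => composedOf (P i) (x i))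
      (fun i => Finset.Subset.refl _) hne (fun v => ¬ Good ε A U W N (fun i => c i + κ i * v i)) (1 / Real.log N ^ U) (by
        refine le_trans (le_of_eq ?_) h2
        apply sum_congr rfl
        intro m hm
        have e1 : ∏ i, (if m i ∈ composedOf (P i) (x i) then 1 / ((composedOf (P i) (x i)).card : ℝ) else 0) =
            ∏ i, 1 / ((Pool.Agent.N469.SM.SS (P i) (x i)).card : ℝ) := by
          apply prod_congr rfl
          intro i _
          rw [if_pos (Fintype.mem_piFinset.1 hm i)]
          rfl
        rw [e1]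
        by_cases hg : Good ε A U W N (fun i => c i + κ i * m i)
        · have hg' : ¬ ¬ Pool.Agent.Run7.h927.ST.NearS ε A U W N (fun i => c i + κ i * m i) := not_not.2 hg
          rw [if_neg (not_not.2 hg), if_neg hg']
        · have hg' : ¬ Pool.Agent.Run7.h927.ST.NearS ε A U W N (fun i => c i + κ i * m i) := hg
          rw [if_pos hg, if_pos hg'])
    rw [mul_one_div] at h3
    exact h3
  obtain ⟨N2, h2⟩ := gen δ hδ
  obtain ⟨N3, h3⟩ := gen δ' hδ'
  refine ⟨N1 + N2 + N3, fun N hN x y hx hy c hc => ⟨fun P hP hcard => h2 N (by omega) x y hx hy c hc P hP hcard, fun hyl => ?_⟩⟩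
  have h4 := h3 N (by omega) x y hx hy c hc (fun i => Pool.Agent.N469.SQ.PR (y i))
    (fun i p hp => Pool.Agent.N469.SQ.mem_PR.1 hp) (fun i => (h1 N (by omega) (y i) (hyl i)).2)
  have e1 : ∀ i, smooth (y i) (x i) = composedOf (Pool.Agent.N469.SQ.PR (y i)) (x i) := by
    intro i
    ext v
    unfold smooth composedOf
    rw [mem_filter, mem_filter]
    constructor
    · rintro ⟨h5, h6⟩
      exact ⟨h5, fun p hp => Pool.Agent.N469.SQ.mem_PR.2 ⟨Nat.prime_of_mem_primeFactors hp, h6 p hp⟩⟩
    · rintro ⟨h5, h6⟩
      exact ⟨h5, fun p hp => (Pool.Agent.N469.SQ.mem_PR.1 (h6 hp)).2⟩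
  simp only [e1]
  exact h4

end Pool.Agent.Results.MP_8bf9c2_nt.SmoothConstants
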