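import Pool.Agent.Run7.h927.Ray2

/-!
# Linear relations between `1`, exponentials and rational powers of `π`

Let `S` be a set of real numbers which is empty or, more generally, ultra-Liouville: finitely many of
its elements always have simultaneous rational approximations which are closer than the exponential of
minus an arbitrarily large power of the common denominator. Let `K` be the field of the complex numbers
which are algebraic over `ℚ(S)`; for `S = ∅` it is the field of algebraic numbers, and there are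
ultra-Liouville sets of the cardinality of the continuum.

1. At most one power `π ^ t` with rational `t > 0` is a sum `a e ^ u + b e ^ v` of two exponentials with
   `a, b, u, v ∈ K`, `a b ≠ 0`, `u ≠ v`, and it is so in at most one way.
2. In this case no power `π ^ s`, `s ≠ 0` rational, is of the form `c e ^ w` with `c, w ∈ K`.
3. Consider the pairs `(α, t)`, `α ∈ K`, `α ≠ 0`, `t > 0` rational, for which `1`, `e ^ α`, `π ^ t` are
   linearly dependent over `K`. There is at most one of them, or they all have the same quotient `α / t`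
   and all the numbers `e ^ α / π ^ t` are in `K`.
4. So, if `1`, `e`, `π` are linearly dependent over `ℚ`, then `1`, `e ^ α`, `π ^ t` are linearly
   independent over `K` for all pairs `(α, t)` with `α ≠ t`; and for all pairs other than `(1, 1)` if
   `π` is not a rational multiple of `e`.

The proof compares the expansions of powers of sums of two exponentials by means of the theorem of
Lindemann and Weierstrass for the fields `K` (`Pool/Agent/R347/LW`).
-/

set_option autoImplicit false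

namespace Pool.Agent.Results.MP_58e087_nt.TwoTermExponentials

/-- Finitely many elements of `S` always have simultaneous rational approximations closer than the
exponential of minus an arbitrarily large power of the common denominator. -/
def UltraLiouville (S : Set ℝ) : Prop :=
  ∀ T : Finset ℝ, (T : Set ℝ) ⊆ S → ∀ κ : ℕ, ∃ q : ℕ, 2 ≤ q ∧
    ∀ ξ ∈ T, ∃ p : ℤ, |ξ - p / q| ≤ Real.exp (-((q : ℝ) ^ κ))

/-- `x` is algebraic over `ℚ(S)` -/
def Alg (S : Set ℝ) (x : ℂ) : Prop :=
  IsAlgebraic (IntermediateField.adjoin ℚ (Complex.ofReal '' S)) x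

/-- the power `π ^ t` with rational exponent -/
noncomputable def piPow (t : ℚ) : ℂ := ((Real.pi ^ (t : ℝ) : ℝ) : ℂ)

/-- `π ^ t = a e ^ u + b e ^ v` with `a, u, b, v` algebraic over `ℚ(S)`, `a b ≠ 0` and `u ≠ v` -/
def IsTwoTerm (S : Set ℝ) (t : ℚ) (a u b v : ℂ) : Prop :=
  Alg S a ∧ Alg S u ∧ Alg S b ∧ Alg S v ∧ a ≠ 0 ∧ b ≠ 0 ∧ u ≠ v ∧
    piPow t = a * Complex.exp u + b * Complex.exp v

/-- `π ^ s = c e ^ w` with `c, w` algebraic over `ℚ(S)` -/
def IsOneTerm (S : Set ℝ) (s : ℚ) (c w : ℂ) : Prop :=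
  Alg S c ∧ Alg S w ∧ piPow s = c * Complex.exp w

/-- `1`, `e ^ α`, `π ^ t` are linearly dependent over the field of the numbers algebraic over `ℚ(S)` -/
def Dependent (S : Set ℝ) (α : ℂ) (t : ℚ) : Prop :=
  ∃ a b c : ℂ, Alg S a ∧ Alg S b ∧ Alg S c ∧ ¬ (a = 0 ∧ b = 0 ∧ c = 0) ∧
    a + b * Complex.exp α + c * piPow t = 0

theorem result (S : Set ℝ) (hS : UltraLiouville S) :
    (∀ t s : ℚ, 0 < t → 0 < s → ∀ a u b v c u' d v' : ℂ, IsTwoTerm S t a u b v →
      IsTwoTerm S s c u' d v' →
      t = s ∧ ((a = c ∧ u = u' ∧ b = d ∧ v = v') ∨ (a = d ∧ u = v' ∧ b = c ∧ v = u'))) ∧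
    (∀ t s : ℚ, 0 < t → s ≠ 0 → ∀ a u b v c w : ℂ, IsTwoTerm S t a u b v → ¬ IsOneTerm S s c w) ∧
    (∀ (α β : ℂ) (t s : ℚ), Alg S α → α ≠ 0 → Alg S β → β ≠ 0 → 0 < t → 0 < s →
      ¬ (α = β ∧ t = s) → Dependent S α t → Dependent S β s →
      (t : ℂ) * β = s * α ∧ Alg S (Complex.exp α / piPow t) ∧ Alg S (Complex.exp β / piPow s)) ∧
    (∀ a b c : ℤ, ¬ (a = 0 ∧ b = 0 ∧ c = 0) → (a : ℝ) + b * Real.exp 1 + c * Real.pi = 0 →
      ∀ (α : ℂ) (t : ℚ), Alg S α → α ≠ 0 → 0 < t →
        (α ≠ t ∨ (a ≠ 0 ∧ ¬ (α = 1 ∧ t = 1))) → ¬ Dependent S α t) := by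
  have hS' : Pool.Agent.R347.LW.UltraLiouville S := hS
  refine ⟨fun t s ht hs a u b v c u' d v' h h' => Run7.h927.Ray.two_two hS' ht hs h h',
    fun t s ht hs a u b v c w h h' => Run7.h927.Ray.two_one hS' ht hs h h',
    fun α β t s hα hα0 hβ hβ0 ht hs hne h h' =>
      Run7.h927.Ray.dep_dep hS' hα hα0 hβ hβ0 ht hs hne h h',
    ?_⟩
  intro a b c hne e α t hα hα0 ht hor h
  have hint : ∀ n : ℤ, Alg S (n : ℂ) := fun n => isAlgebraic_intCast n
  have e' : (a : ℂ) + b * Complex.exp 1 + c * Run7.h927.Ray.pp 1 = 0 := by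
    rw [Run7.h927.Ray.pp_one]
    have h1 : (((a : ℝ) + b * Real.exp 1 + c * Real.pi : ℝ) : ℂ) = 0 := by rw [e]; simp
    push_cast at h1
    exact h1
  have hD : Run7.h927.Ray.Dep S 1 1 := by
    refine ⟨a, b, c, hint a, hint b, hint c, ?_, e'⟩
    rintro ⟨h1, h2, h3⟩
    exact hne ⟨by exact_mod_cast h1, by exact_mod_cast h2, by exact_mod_cast h3⟩
  have h1alg : Alg S (1 : ℂ) := isAlgebraic_one
  rcases hor with h1 | ⟨ha0, h1⟩
  · by_cases h2 : α = 1 ∧ t = 1
    · exact h1 (by rw [h2.1, h2.2]; simp)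
    · obtain ⟨h3, -, -⟩ := Run7.h927.Ray.dep_dep hS' hα hα0 h1alg one_ne_zero ht one_pos h2 h hD
      apply h1
      rw [mul_one] at h3
      simpa using h3.symm
  · have h2 : ∃ a' b', Run7.h927.Ray.Two S 1 a' 0 b' 1 := by
      have hc0 : (c : ℂ) ≠ 0 := by
        intro hc
        have h3 := Run7.h927.Ray.two_terms hS' (hint a) (hint b)
          (isAlgebraic_zero (R := Run7.h927.Ray.FS S) (A := ℂ)) isAlgebraic_zero
          (isAlgebraic_zero (R := Run7.h927.Ray.FS S) (A := ℂ)) h1alg zero_ne_one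
          (by rw [Complex.exp_zero]; rw [hc] at e'; linear_combination e')
        exact ha0 (by exact_mod_cast h3.1)
      have hb0 : (b : ℂ) ≠ 0 := by
        intro hb
        apply Run7.h927.Ray.pp_not_alg hS' (one_pos : (0 : ℚ) < 1)
        have h3 : Run7.h927.Ray.pp 1 = -(a / c : ℂ) := by
          rw [hb] at e'
          field_simp
          linear_combination e'
        rw [h3, div_eq_mul_inv]
        exact ((hint a).mul (hint c).inv).neg
      refine ⟨-(a / c : ℂ), -(b / c : ℂ), ?_, isAlgebraic_zero, ?_, h1alg, ?_, ?_, zero_ne_one, ?_⟩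
      · rw [div_eq_mul_inv]
        exact ((hint a).mul (hint c).inv).neg
      · rw [div_eq_mul_inv]
        exact ((hint b).mul (hint c).inv).neg
      · exact neg_ne_zero.2 (div_ne_zero (by exact_mod_cast ha0) hc0)
      · exact neg_ne_zero.2 (div_ne_zero hb0 hc0)
      · rw [Complex.exp_zero]
        field_simp
        linear_combination e'
    obtain ⟨a', b', h2⟩ := h2
    rcases Run7.h927.Ray.Dep.cases hS' hα hα0 ht h with ⟨a'', b'', h3⟩ | ⟨b'', h3⟩
    · obtain ⟨e1, ⟨-, -, -, e2⟩ | ⟨-, e2, -, -⟩⟩ :=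
        Run7.h927.Ray.two_two hS' ht one_pos h3 h2
      · exact h1 ⟨e2, e1⟩
      · exact zero_ne_one e2
    · exact Run7.h927.Ray.two_one hS' one_pos ht.ne' h2 h3

end Pool.Agent.Results.MP_58e087_nt.TwoTermExponentials
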