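import Pool.Agent.Run7.h927.ST.Unif
import Pool.Agent.N625.GW.F

/-!
# Primes `q` for which all `d_i q + a_i` are primes: the digits of the constants are walks in graphs

For almost all vectors `(a_1, ..., a_s)` of integers whose digits label the walks of a given length between two vertices
of a graph (for instance of the Cayley graph of a group with the property of rapid decay, or of polynomial growth: the
product of the generators which correspond to the digits is prescribed), the formula of Hardy and Littlewood holds for
the number of the primes `q` for which all the numbers `d_i q + a_i` are primes, for ALL the slopes `d_i ≤ log ^ A N` at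
the same time, and for all the vectors of constants in a box of side `log ^ W N` as well. For `s = 1` this is the number
of the primes `q` with `a + q d` prime; the pair `(a, d)` is admissible in this case if and only if `gcd (a, d) = 1` and
`2 ∣ a d`. The constants are as large as the values of `d q`.

Method: the exponential sum over the walks is dominated by the iterates of the adjacency operator of the graph
(starting files, `Pool.Agent.N625.GW`, helper625); hence the sum of `G n * (Λ - λ_z) (n + a)` over `n ≤ N` is small on
average over the walks, for ARBITRARY coefficients `G` (`Pool.Agent.N625.DY.cls_one`). With coefficients supported on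
the multiples of `d` this replaces the von Mangoldt function by the sieve model along the progression `d q + a`,
uniformly in `d` (`Pool.Agent.N699.ST`, starting files, helper699). New here: the combination for walks, and the
passage to all the vectors near a random one.
-/

set_option autoImplicit false

namespace Pool.Agent.Results.MP_8bf9c2_nt.WalkConstants

open Finset

/-- For every prime `p` there is an `r` such that `p` divides neither `r` nor any `d i * r + a i`. -/
def Admissible {s : ℕ} (d a : Fin s → ℕ) : Prop := ∀ p : ℕ, p.Prime → ∃ r : ℕ, ¬ p ∣ r ∧ ∀ i, ¬ p ∣ d i * r + a i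

/-- The number of the residues `r < p` for which `p` divides `r * ∏ i, (d i * r + a i)`. -/
def nu {s : ℕ} (d a : Fin s → ℕ) (p : ℕ) : ℕ := ((range p).filter fun r => p ∣ r * ∏ i, (d i * r + a i)).card

/-- The partial product over the primes `p ≤ z` of the singular series. -/
noncomputable def sing {s : ℕ} (d a : Fin s → ℕ) (z : ℕ) : ℝ :=
  ∏ p ∈ (Icc 1 z).filter Nat.Prime, (1 - (nu d a p : ℝ) / p) / (1 - 1 / (p : ℝ)) ^ (s + 1)

/-- The number of the primes `q ≤ x` for which all `d i * q + a i` are primes. -/
def count {s : ℕ} (d a : Fin s → ℕ) (x : ℕ) : ℕ := ((Icc 1 x).filter fun q => q.Prime ∧ ∀ i, (d i * q + a i).Prime).card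

/-- The formula of Hardy and Littlewood for the primes `q ≤ x` with all `d i * q + a i` prime, where `log N` is the
approximate size of the logarithms of the primes: the singular series converges to some `S > 0`, the number of the
solutions weighted with the von Mangoldt function is `S x`, with an error of at most `x / log ^ U N`, and the number of
the solutions is `S x / log ^ (s + 1) N`, with a relative error of at most `ε`. -/
def Formula {s : ℕ} (ε : ℝ) (U N x : ℕ) (d a : Fin s → ℕ) : Prop :=
  ∃ S : ℝ, 0 < S ∧ Filter.Tendsto (sing d a) Filter.atTop (nhds S) ∧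
    |∑ n ∈ Icc 1 x, ArithmeticFunction.vonMangoldt n * ∏ i, ArithmeticFunction.vonMangoldt (d i * n + a i) - S * x| ≤
      x / Real.log N ^ U ∧
    |(count d a x : ℝ) - S * (x / Real.log N ^ (s + 1))| ≤ ε * (S * (x / Real.log N ^ (s + 1)))

/-- For all the vectors `a'` of integers with `a i ≤ a' i ≤ a i + log ^ W N`, for all `j ≤ log ^ A N` and for ALL
slopes `1 ≤ d i ≤ j` such that the system is admissible, the formula holds for the primes `q ≤ N / j`. -/
def Good {s : ℕ} (ε : ℝ) (A U W N : ℕ) (a : Fin s → ℕ) : Prop :=
  ∀ a' : Fin s → ℕ, (∀ i, a i ≤ a' i ∧ (a' i : ℝ) ≤ a i + Real.log N ^ W) →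
    ∀ (j : ℕ) (d : Fin s → ℕ), (j : ℝ) ≤ Real.log N ^ A → (∀ i, 1 ≤ d i ∧ d i ≤ j) → Admissible d a' →
      Formula ε U N (N / j) d a'

/-- The digits `a < b` act on the set `X` of the vertices: an edge with the label `a` leads from `x` to `y` if
`δ x a = some y` (at most one edge with the label `a` starts at `x`). The number of the edges from `x` to `y` equals the
number of the edges from `y` to `x`, and at least two edges start at every vertex. The graph may be infinite. -/
structure Graph {X : Type} (b : ℕ) (δ : X → ℕ → Option X) : Prop where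
  symm : ∀ x y : X, {a : ℕ | a < b ∧ δ x a = some y}.ncard = {a : ℕ | a < b ∧ δ y a = some x}.ncard
  two : ∀ x : X, ∃ a a' : ℕ, a < a' ∧ a' < b ∧ (δ x a).isSome ∧ (δ x a').isSome

open Classical in
/-- The integers `v < b ^ k` whose `k` digits in base `b`, from the most significant to the least significant one (the
digit number `i`, `0 ≤ i < k`, from the left is `v / b ^ (k - 1 - i) % b`), are the labels of a walk from `x` to `y`. -/
noncomputable def walks {X : Type} (b : ℕ) (δ : X → ℕ → Option X) (k : ℕ) (x y : X) : Finset ℕ :=
  (range (b ^ k)).filter fun v =>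
    ((List.range k).map fun i => v / b ^ (k - 1 - i) % b).foldl (fun s a => s.bind fun z => δ z a) (some x) = some y

open Classical in
/-- For `i < s` let `δ i` be a graph whose edges are labelled with the digits in base `b i`, let `x i` be a vertex of it,
and let `ρ i > 0` be such that there are at most `(ρ i) ^ (2 n)` closed walks of the length `2 n` at `x i`, for all `n`.
Let `s ≥ 1`, factors `κ i ≥ 1`, `A`, `B`, `D`, `U`, `W` and `ε > 0` be fixed. Let `N` be large, let the numbers `k i` of
digits satisfy `N / B ≤ b i ^ k i ≤ B N`, let `0 ≤ c i ≤ B N` be arbitrary integers, and let `y i` be vertices such that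
the number of the walks of the length `k i` from `x i` to `y i` is at least `(ρ i) ^ (k i) / (k i) ^ D`. Then all the
vectors `(v 1, ..., v s)` of integers `v i` whose `k i` digits are the labels of a walk from `x i` to `y i`, with the
exception of a proportion of at most `1 / log ^ U N` of them, have the following property: for all the vectors `a` of
integers with `c i + κ i v i ≤ a i ≤ c i + κ i v i + log ^ W N`, for all `j ≤ log ^ A N` and ALL slopes
`1 ≤ d 1, ..., d s ≤ j` for which the system is admissible, the formula of Hardy and Littlewood holds for the number of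
the primes `q ≤ N / j` for which all `d i * q + a i` are primes.

(For a group of polynomial growth, a free group, or any group with the property of rapid decay, there are at least
`ρ ^ k / k ^ D` closed walks of every even length `k` in the Cayley graph, where `ρ` is its spectral radius.) -/
theorem result (s : ℕ) (hs : 1 ≤ s) (b : Fin s → ℕ) (X : Fin s → Type) (δ : ∀ i, X i → ℕ → Option (X i))
    (hG : ∀ i, Graph (b i) (δ i)) (x : ∀ i, X i) (ρ : Fin s → ℝ) (hρ : ∀ i, 0 < ρ i)
    (hR : ∀ i, ∀ n : ℕ, ((walks (b i) (δ i) (2 * n) (x i) (x i)).card : ℝ) ≤ ρ i ^ (2 * n))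
    (κ : Fin s → ℕ) (hκ : ∀ i, 1 ≤ κ i) (A B D U W : ℕ) (ε : ℝ) (hε : 0 < ε) :
    ∃ N₀ : ℕ, ∀ N, N₀ ≤ N → ∀ k : Fin s → ℕ, (∀ i, b i ^ k i ≤ B * N ∧ N ≤ B * b i ^ k i) →
      ∀ c : Fin s → ℕ, (∀ i, c i ≤ B * N) →
      ∀ y : ∀ i, X i, (∀ i, ρ i ^ k i / (k i : ℝ) ^ D ≤ (walks (b i) (δ i) (k i) (x i) (y i)).card) →
      (((Fintype.piFinset fun i => walks (b i) (δ i) (k i) (x i) (y i)).filter fun v =>
        ¬ Good ε A U W N (fun i => c i + κ i * v i)).card : ℝ) ≤
        ((Fintype.piFinset fun i => walks (b i) (δ i) (k i) (x i) (y i)).card : ℝ) / Real.log N ^ U := by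
  have hG' : ∀ i, Pool.Agent.N625.GW.Graph (b i) (δ i) := fun i => ⟨(hG i).symm, (hG i).two⟩
  have hb : ∀ i, 2 ≤ b i := fun i => Pool.Agent.N625.GW.two_le (hG' i) (x i)
  obtain ⟨N₀, h0⟩ := Pool.Agent.Run7.h927.ST.ws_near s hs
    (fun i => Pool.Agent.N625.DY.Kc (b i) B (Pool.Agent.N625.GW.WC (b i) (δ i) (x i) (ρ i) D)) κ hκ B U A W ε hε
    (fun i V => Pool.Agent.N625.DY.cls_one (κ i) (Pool.Agent.N625.GW.w_cls (hG' i) (x i) (ρ i) (hρ i) (hR i) D (κ i : ℤ)
      (by exact_mod_cast (by have := hκ i; omega : κ i ≠ 0))) B (B + 1) V)
  refine ⟨N₀ + B + 1, fun N hN k hk c hc y hy => ?_⟩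
  have hk1 : ∀ i, 1 ≤ k i := by
    intro i
    rcases Nat.eq_zero_or_pos (k i) with h | h
    · have := (hk i).2
      rw [h, pow_zero, mul_one] at this
      omega
    · exact h
  have hy' : ∀ i, ρ i ^ k i ≤ (k i : ℝ) ^ D * (walks (b i) (δ i) (k i) (x i) (y i)).card := by
    intro i
    have h1 : (0 : ℝ) < (k i : ℝ) ^ D := by
      have : (0 : ℝ) < k i := by exact_mod_cast hk1 i
      positivity
    have h2 := hy i
    rw [div_le_iff₀ h1] at h2
    linarith
  have h1 := h0 N (by omega) (fun i => range (b i ^ k i)) (fun i v => if v ∈ walks (b i) (δ i) (k i) (x i) (y i) then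
      1 / ((walks (b i) (δ i) (k i) (x i) (y i)).card : ℝ) else 0)
    (fun i => ⟨k i, (hk i).1, (hk i).2, ⟨y i, hy' i, rfl⟩, rfl⟩) (fun i v _ => by split_ifs <;> positivity) c hc
  have h2 := Pool.Agent.Run7.h927.ST.unif_bad (fun i => range (b i ^ k i)) (fun i => walks (b i) (δ i) (k i) (x i) (y i))
    (fun i => filter_subset _ _) (fun i => Pool.Agent.N625.GW.card_pos' (hρ i) (hy' i))
    (fun v => ¬ Good ε A U W N (fun i => c i + κ i * v i)) (1 / Real.log N ^ U) (by
      refine le_trans (le_of_eq ?_) h1
      apply sum_congr rfl
      intro m _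
      by_cases hg : Good ε A U W N (fun i => c i + κ i * m i)
      · have hg' : ¬ ¬ Pool.Agent.Run7.h927.ST.NearS ε A U W N (fun i => c i + κ i * m i) := not_not.2 hg
        rw [if_neg (not_not.2 hg), if_neg hg']
      · have hg' : ¬ Pool.Agent.Run7.h927.ST.NearS ε A U W N (fun i => c i + κ i * m i) := hg
        rw [if_pos hg, if_pos hg'])
  rw [mul_one_div] at h2
  exact h2

end Pool.Agent.Results.MP_8bf9c2_nt.WalkConstants
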